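import Pool.Agent.H78.CM.Targets

/-!
# MP_308708_lc, module NSS: no small subgroups
-/

set_option autoImplicit false

namespace Pool.Agent.H54.CM.NSS

open Pool.Agent.H78.CM

theorem X : T_NSS := by
  intro A _ _ g h
  have step : ∀ n : ℕ, 3 / 2 * ‖g ^ n - 1‖ ≤ ‖g ^ (2 * n) - 1‖ := by
    intro n
    set x := g ^ n - 1 with hx
    have e : g ^ (2 * n) - 1 = (2 : ℝ) • x + x * x := by
      have hg : g ^ n = x + 1 := by rw [hx]; abel
      rw [two_mul, pow_add, hg, two_smul]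
      noncomm_ring
    have h1 : ‖x‖ ≤ 1 / 2 := h n
    have h2 : ‖(2 : ℝ) • x‖ = 2 * ‖x‖ := by
      rw [norm_smul]
      norm_num
    have h3 : ‖x * x‖ ≤ ‖x‖ * ‖x‖ := norm_mul_le x x
    have h4 : ‖(2 : ℝ) • x‖ ≤ ‖(2 : ℝ) • x + x * x‖ + ‖x * x‖ := by
      have := norm_sub_le ((2 : ℝ) • x + x * x) (x * x)
      rwa [add_sub_cancel_right] at this
    rw [e]
    nlinarith [norm_nonneg x]
  have key : ∀ j : ℕ, (3 / 2 : ℝ) ^ j * ‖g - 1‖ ≤ ‖g ^ (2 ^ j) - 1‖ := by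
    intro j
    induction j with
    | zero => simp
    | succ j ih =>
      have h1 := step (2 ^ j)
      have e : 2 ^ (j + 1) = 2 * 2 ^ j := by ring
      rw [e]
      calc (3 / 2 : ℝ) ^ (j + 1) * ‖g - 1‖ = 3 / 2 * ((3 / 2 : ℝ) ^ j * ‖g - 1‖) := by ring
        _ ≤ 3 / 2 * ‖g ^ (2 ^ j) - 1‖ := by gcongr
        _ ≤ _ := h1
  by_contra hne
  have hpos : 0 < ‖g - 1‖ := by
    rw [norm_pos_iff]
    exact sub_ne_zero.2 hne
  obtain ⟨j, hj⟩ := pow_unbounded_of_one_lt (1 / ‖g - 1‖) (show (1 : ℝ) < 3 / 2 by norm_num)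
  have h1 := key j
  have h2 := h (2 ^ j)
  rw [div_lt_iff₀ hpos] at hj
  linarith

end Pool.Agent.H54.CM.NSS
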